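import Pool.Agent.Q146.IrrDouble

set_option autoImplicit false

namespace Pool.Agent.Results.MP_5dc1dd_co.Triangle

open Pool.Agent.Q146.IrrDouble

/-- There is a monohedral irreducible multiple tiling of the plane of density `2` whose prototile
is a triangle. -/
theorem result :
    ∃ P : Set Plane, IsTriangle P ∧ ∃ (ι : Type) (T : ι → Set Plane), Countable ι ∧
      IsMonohedral P T ∧ IsMultipleTiling T 2 ∧ ¬ IsReducible T 2 :=
  ⟨T0, T0_tri, I × Bool, tri, inferInstance, tri_mono, tri_tiling, tri_irreducible⟩

end Pool.Agent.Results.MP_5dc1dd_co.Triangle
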